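import Pool.Agent.Lib.MP_b2f51a_al.Split.Final
import Pool.Agent.Lib.MP_b2f51a_al.Main

/-! The question under both conventions: with the derivation `d` and both highest weights in
degree zero every extension splits for `p > l`; modulo `δ` there is a non-split extension at
level `3` in characteristic `23`. -/

open Pool.Agent.Lib.MP_b2f51a_al

universe u

/-- `0 → V(wt l m) → E → V(wt l n) → 0` is a short exact sequence of `U_F`-modules, `E` is
integrable of level `l` and graded by `g`, the generator of the submodule has degree `0` and the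
generator of the quotient has a lift of degree `a`. -/
structure Pool.Agent.Variants.MP_b2f51a_al.BothReadings.IsExt (F : Type u) [Field F] (l n m : ℕ)
    (a : ℤ) {E : Type u} [AddCommGroup E] [Module (UF F) E]
    (i : Weyl F (wt l m) →ₗ[UF F] E) (π : E →ₗ[UF F] Weyl F (wt l n))
    (g : ℤ → AddSubgroup E) : Prop where
  integrable : IsIntegrableOfLevel F l E
  grading : IsDegreeGrading F g
  sub : i (weylGen F (wt l m)) ∈ g 0
  quot : ∃ y ∈ g a, π y = weylGen F (wt l n)
  inj : Function.Injective i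
  surj : Function.Surjective π
  exact : Function.Exact i π

theorem Pool.Agent.Variants.MP_b2f51a_al.BothReadings.result :
    (∀ (F : Type u) [Field F] (p : ℕ) [CharP F p] (l n m : ℕ), n ≤ l → m ≤ l → l < p →
      ∀ (E : Type u) [AddCommGroup E] [Module (UF F) E]
        (i : Weyl F (wt l m) →ₗ[UF F] E) (π : E →ₗ[UF F] Weyl F (wt l n))
        (g : ℤ → AddSubgroup E), IsExt F l n m 0 i π g →
        ∃ s : Weyl F (wt l n) →ₗ[UF F] E,
          π ∘ₗ s = LinearMap.id ∧ s (weylGen F (wt l n)) ∈ g 0) ∧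
    (∀ (F : Type u) [Field F] [CharP F 23],
      ∃ (E : Type u) (_ : AddCommGroup E) (_ : Module (UF F) E)
        (i : Weyl F (wt 3 0) →ₗ[UF F] E) (π : E →ₗ[UF F] Weyl F (wt 3 2))
        (g : ℤ → AddSubgroup E), IsExt F 3 2 0 (-5) i π g ∧
        ¬ ∃ s : Weyl F (wt 3 2) →ₗ[UF F] E, π ∘ₗ s = LinearMap.id) := by
  refine ⟨fun _ _ p _ _ _ _ hn hm hp _ _ _ i π _ h => splits (d := 0) p hn hm hp i π
    h.integrable.weight h.integrable.integrable h.grading h.sub h.quot h.exact, fun F _ _ => ?_⟩
  obtain ⟨E, _, _, i, π, h1, ⟨g, h2, h3, h4⟩, h5, h6, h7, h8⟩ := main F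
  exact ⟨E, _, _, i, π, g, ⟨h1, h2, h3, h4, h5, h6, h7⟩, h8⟩
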