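import Pool.Agent.Lib.MP_b2f51a_al.Main

/-! Level `3`, characteristic `23 > 2 * 3 ^ 2 + 3 - 3 = 18`: a non-split extension of the Weyl
module `V(ω_0 + 2 ω_1)` by the Weyl module `V(3 ω_0)` of affine `sl_2`. -/

open Pool.Agent.Lib.MP_b2f51a_al

universe u

theorem Pool.Agent.Variants.MP_b2f51a_al.NonSplit.result (F : Type u) [Field F] [CharP F 23] :
    ∃ (E : Type u) (_ : AddCommGroup E) (_ : Module (UF F) E)
      (i : Weyl F (wt 3 0) →ₗ[UF F] E) (π : E →ₗ[UF F] Weyl F (wt 3 2)),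
      IsIntegrableOfLevel F 3 E ∧
      (∃ g : ℤ → AddSubgroup E, IsDegreeGrading F g ∧ i (weylGen F (wt 3 0)) ∈ g 0 ∧
        ∃ y ∈ g (-5), π y = weylGen F (wt 3 2)) ∧
      Function.Injective i ∧ Function.Surjective π ∧ Function.Exact i π ∧
      ¬ ∃ s : Weyl F (wt 3 2) →ₗ[UF F] E, π ∘ₗ s = LinearMap.id :=
  main F
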